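import Pool.Agent.H7.TRI.Stmts

open Finset

namespace Pool.TRI

theorem ISA_thm (hEXF : EXFStmt) (hOUT : OUTStmt) (hISU : ISUStmt) (_hRCH : RCHStmt) :
    ISAStmt := by
  intro V _ _ G d m hH C hC w hw hnb
  obtain ⟨hwX, w', hw'X, hww', hw'nb, -, hu⟩ := hISU V G d m hH C hC w hw
  obtain ⟨h1, -, -, h4⟩ := hOUT V G d m hH C hC w hwX
  have hdf : df G C w = 1 := (mem_Iso.1 hw).2.1
  rw [hnb, card_empty] at h1
  have hsub : ((XX G C).erase w).erase w' ⊆ nb G w := by
    intro u hu'
    rw [mem_erase, mem_erase] at hu'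
    exact (hu u hu'.2.2 hu'.2.1 hu'.1).1
  have hcard : (((XX G C).erase w).erase w').card + 2 = (XX G C).card := by
    have h5 := card_erase_add_one hwX
    have h6 : w' ∈ (XX G C).erase w := mem_erase.2 ⟨hww', hw'X⟩
    have h7 := card_erase_add_one h6
    omega
  have hnbC : nb G w ⊆ C := sdiff_eq_empty_iff_subset.1 hnb
  have h8 : ∑ u ∈ ((XX G C).erase w).erase w', (et G d w u - 1) ≤ ∑ u ∈ nb G w, (et G d w u - 1) := by
    refine sum_le_sum_of_subset_of_nonneg hsub (fun u hu1 hu2 => ?_)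
    by_cases hS : cn G u = C
    · have := (h4 u (mem_SS.2 ⟨hnbC hu1, hS⟩)).2
      rw [this, hdf]
      simp
    · exfalso
      apply hu2
      rw [mem_erase, mem_erase]
      refine ⟨?_, ?_, mem_XX.2 ⟨hnbC hu1, hS⟩⟩
      · rintro rfl
        exact hw'nb hu1
      · rintro rfl
        exact self_notMem_nb _ hu1
  have h9 : ((((XX G C).erase w).erase w').card : ℤ) ≤
      ∑ u ∈ ((XX G C).erase w).erase w', (et G d w u - 1) := by
    rw [card_eq_sum_ones]
    push_cast
    refine sum_le_sum (fun u hu' => ?_)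
    rw [mem_erase, mem_erase] at hu'
    have h10 := (hu u hu'.2.2 hu'.2.1 hu'.1).2.1
    rw [hnb, card_empty] at h10
    push_cast at h10
    linarith
  rw [hEXF V G d w]
  have h11 : (d : ℤ) - ((nb G w).card : ℤ) = 1 := by
    rw [hdf] at h1
    have : ((nb G w).card : ℤ) + 1 = d := by exact_mod_cast h1
    linarith
  rw [h11, one_mul]
  unfold xx
  have h12 : ((((XX G C).erase w).erase w').card : ℤ) + 2 = ((XX G C).card : ℤ) := by
    exact_mod_cast hcard
  linarith

end Pool.TRI
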